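import Pool.Agent.N522.EF.Perm

/-!
# The kernel of `N` on `A ⊗ Sp(t + 1)`, isomorphisms, averages
-/

set_option autoImplicit false

namespace Pool.Agent.N522.EF

open Module

section tr

variable {V V' : Type} [AddCommGroup V] [Module ℂ V] [AddCommGroup V'] [Module ℂ V']

theorem tr_eq {g : End ℂ V} {g' : End ℂ V'} {U : Submodule ℂ V} {U' : Submodule ℂ V'}
    (hU : ∀ x ∈ U, g x ∈ U) (hU' : ∀ x ∈ U', g' x ∈ U') (e : U ≃ₗ[ℂ] U')
    (he : ∀ x : U, ∀ y : U, (y : V) = g x → (e y : V') = g' (e x)) :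
    tr g U = tr g' U' := by
  refine trace_conj_eq e _ _ fun x => Subtype.ext ?_
  rw [res_apply hU', he x _ (res_apply hU x)]

theorem trace_res_pow {g : End ℂ V} {g' : End ℂ V'} {U : Submodule ℂ V} {U' : Submodule ℂ V'}
    (hU : ∀ x ∈ U, g x ∈ U) (hU' : ∀ x ∈ U', g' x ∈ U') (e : U ≃ₗ[ℂ] U')
    (he : ∀ x : U, ∀ y : U, (y : V) = g x → (e y : V') = g' (e x)) (n : ℕ) :
    LinearMap.trace ℂ U (res g U ^ n) = LinearMap.trace ℂ U' (res g' U' ^ n) := by
  refine trace_conj_eq e _ _ fun x => ?_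
  induction n generalizing x with
  | zero => rfl
  | succ n ih =>
    rw [pow_succ, End.mul_apply, ih, pow_succ, End.mul_apply]
    congr 1
    apply Subtype.ext
    rw [res_apply hU', he x _ (res_apply hU x)]

end tr

variable {W : Type} [Group W] {p : ℕ} {v : W →* Multiplicative ℤ}

section sp

variable [Fact p.Prime] {A : WD W}

theorem sp_ker {t : ℕ} {φ : (sp p v t A).V} (hφ : φ ∈ LinearMap.ker (sp p v t A).N) :
    (∀ (j : ℕ) (hj : j + 1 < t + 1), φ ⟨j + 1, hj⟩ = - A.N (φ ⟨j, by omega⟩)) ∧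
      A.N (φ (Fin.last t)) = 0 := by
  have h0 : (sp p v t A).N φ = 0 := LinearMap.mem_ker.1 hφ
  have h : ∀ j : Fin (t + 1),
      A.N (φ j) + (if h : (j : ℕ) + 1 < t + 1 then φ ⟨j + 1, h⟩ else 0) = 0 :=
    fun j => congrFun h0 j
  refine ⟨fun j hj => ?_, ?_⟩
  · have h1 := h ⟨j, by omega⟩
    rw [dif_pos hj] at h1
    exact (neg_eq_of_add_eq_zero_right h1).symm
  · have h1 := h (Fin.last t)
    rw [dif_neg (by simp), add_zero] at h1
    exact h1

theorem sp_val {t : ℕ} {φ : (sp p v t A).V} (hφ : φ ∈ LinearMap.ker (sp p v t A).N) (j : ℕ)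
    (hj : j < t + 1) : φ ⟨j, hj⟩ = (-1 : ℂ) ^ j • (A.N ^ j) (φ ⟨0, by omega⟩) := by
  induction j with
  | zero => simp
  | succ j ih =>
    rw [(sp_ker hφ).1 j hj, ih (by omega), map_smul, pow_succ' A.N, End.mul_apply, pow_succ,
      mul_neg_one, neg_smul]

theorem sp_mem {t : ℕ} (x : A.V) (hx : (A.N ^ (t + 1)) x = 0) :
    (sp p v t A).N (fun j => (-1 : ℂ) ^ (j : ℕ) • (A.N ^ (j : ℕ)) x) = 0 := by
  funext j
  change A.N ((-1 : ℂ) ^ (j : ℕ) • (A.N ^ (j : ℕ)) x) + (if h : (j : ℕ) + 1 < t + 1 then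
    (-1 : ℂ) ^ ((j : ℕ) + 1) • (A.N ^ ((j : ℕ) + 1)) x else 0) = 0
  by_cases h : (j : ℕ) + 1 < t + 1
  · rw [dif_pos h, map_smul, pow_succ' A.N, End.mul_apply, pow_succ, mul_neg_one, neg_smul,
      add_neg_cancel]
  · rw [dif_neg h, add_zero, map_smul, ← End.mul_apply, ← pow_succ']
    have hj : (j : ℕ) = t := by omega
    rw [hj, hx, smul_zero]

/-- `ker N` on `A ⊗ Sp(t + 1)` is `ker N ^ (t + 1)` on `A`. -/
noncomputable def spEquiv (p : ℕ) [Fact p.Prime] (v : W →* Multiplicative ℤ) (t : ℕ) (A : WD W) :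
    LinearMap.ker (sp p v t A).N ≃ₗ[ℂ] LinearMap.ker (A.N ^ (t + 1)) where
  toFun φ := ⟨φ.1 ⟨0, by omega⟩, by
    have h1 := sp_val φ.2 t (by omega)
    have h2 := (sp_ker φ.2).2
    have h3 : Fin.last t = ⟨t, by omega⟩ := rfl
    rw [h3, h1, map_smul] at h2
    rw [LinearMap.mem_ker, pow_succ', End.mul_apply]
    exact (smul_eq_zero.1 h2).resolve_left (pow_ne_zero _ (by norm_num))⟩
  map_add' φ ψ := rfl
  map_smul' c φ := rfl
  invFun x := ⟨fun j => (-1 : ℂ) ^ (j : ℕ) • (A.N ^ (j : ℕ)) x,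
    LinearMap.mem_ker.2 (sp_mem x.1 (LinearMap.mem_ker.1 x.2))⟩
  left_inv φ := by
    apply Subtype.ext
    funext j
    exact (sp_val φ.2 j j.2).symm
  right_inv x := by
    apply Subtype.ext
    change (-1 : ℂ) ^ 0 • (A.N ^ 0) (x : A.V) = x
    simp

end sp

section iso

variable {A B : WD W}

theorem map_ker {θ : A.V ≃ₗ[ℂ] B.V} (hθ : ∀ x, θ (A.N x) = B.N (θ x)) :
    (LinearMap.ker A.N).map (θ : A.V →ₗ[ℂ] B.V) = LinearMap.ker B.N := by
  ext y
  constructor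
  · rintro ⟨x, hx, rfl⟩
    rw [LinearMap.mem_ker]
    change B.N (θ x) = 0
    rw [← hθ, LinearMap.mem_ker.1 hx, map_zero]
  · intro hy
    refine ⟨θ.symm y, ?_, θ.apply_symm_apply y⟩
    rw [SetLike.mem_coe, LinearMap.mem_ker]
    apply θ.injective
    rw [hθ, θ.apply_symm_apply, LinearMap.mem_ker.1 hy, map_zero]

theorem map_inv' {θ : A.V ≃ₗ[ℂ] B.V} (h1 : ∀ g x, θ (A.ρ g x) = B.ρ g (θ x))
    (h2 : ∀ x, θ (A.N x) = B.N (θ x)) :
    (inv v A).map (θ : A.V →ₗ[ℂ] B.V) = inv v B := by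
  ext y
  constructor
  · rintro ⟨x, ⟨hx1, hx2⟩, rfl⟩
    refine ⟨?_, fun u hu => ?_⟩
    · change B.N (θ x) = 0
      rw [← h2, hx1, map_zero]
    · change B.ρ u (θ x) = θ x
      rw [← h1, show A.ρ u x = x from hx2 u hu]
  · rintro ⟨hy1, hy2⟩
    refine ⟨θ.symm y, ⟨?_, fun u hu => ?_⟩, θ.apply_symm_apply y⟩
    · apply θ.injective
      rw [h2, θ.apply_symm_apply, hy1, map_zero]
    · apply θ.injective
      rw [h1, θ.apply_symm_apply, show B.ρ u y = y from hy2 u hu]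

/-- The traces on the inertia invariants of isomorphic representations agree. -/
theorem trace_iso_inv (hA : ∀ g x, A.N (A.ρ g x) = om p v g • A.ρ g (A.N x))
    (hB : ∀ g x, B.N (B.ρ g x) = om p v g • B.ρ g (B.N x)) (hAB : Iso A B) (g : W) (n : ℕ) :
    LinearMap.trace ℂ _ (res (A.ρ g) (inv v A) ^ n) =
      LinearMap.trace ℂ _ (res (B.ρ g) (inv v B) ^ n) := by
  obtain ⟨θ, h1, h2⟩ := hAB
  refine trace_res_pow (inv_stable hA g) (inv_stable hB g)
    (θ.ofSubmodules _ _ (map_inv' h1 h2)) (fun x y hy => ?_) n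
  change θ (y : A.V) = B.ρ g (θ (x : A.V))
  rw [hy, h1]

theorem tr_iso_ker (hA : ∀ g x, A.N (A.ρ g x) = om p v g • A.ρ g (A.N x))
    (hB : ∀ g x, B.N (B.ρ g x) = om p v g • B.ρ g (B.N x)) (hAB : Iso A B) (g : W) :
    tr (A.ρ g) (LinearMap.ker A.N) = tr (B.ρ g) (LinearMap.ker B.N) := by
  obtain ⟨θ, h1, h2⟩ := hAB
  refine tr_eq (ker_stable' hA g) (ker_stable' hB g)
    (θ.ofSubmodules _ _ (map_ker h2)) (fun x y hy => ?_)
  change θ (y : A.V) = B.ρ g (θ (x : A.V))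
  rw [hy, h1]

theorem sp_mono [Fact p.Prime] (hA : ∀ g x, A.N (A.ρ g x) = om p v g • A.ρ g (A.N x)) (t : ℕ) :
    ∀ g x, (sp p v t A).N ((sp p v t A).ρ g x) =
      om p v g • (sp p v t A).ρ g ((sp p v t A).N x) := by
  intro g φ
  funext j
  change A.N (om p v g ^ (j : ℕ) • A.ρ g (φ j)) + (if h : (j : ℕ) + 1 < t + 1 then
      om p v g ^ ((j : ℕ) + 1) • A.ρ g (φ ⟨j + 1, h⟩) else 0) =
    om p v g • om p v g ^ (j : ℕ) • A.ρ g (A.N (φ j) +
      if h : (j : ℕ) + 1 < t + 1 then φ ⟨j + 1, h⟩ else 0)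
  rw [map_smul, hA, map_add, smul_add, smul_add, smul_comm]
  congr 1
  by_cases h : (j : ℕ) + 1 < t + 1
  · rw [dif_pos h, dif_pos h, smul_smul, pow_succ']
  · rw [dif_neg h, dif_neg h, map_zero, smul_zero, smul_zero]

theorem tr_sp [Fact p.Prime] (hA : ∀ g x, A.N (A.ρ g x) = om p v g • A.ρ g (A.N x)) (t : ℕ)
    (g : W) : tr ((sp p v t A).ρ g) (LinearMap.ker (sp p v t A).N) =
      tr (A.ρ g) (LinearMap.ker (A.N ^ (t + 1))) := by
  refine tr_eq (ker_stable' (sp_mono hA t) g) (ker_stable hA (t + 1) g) (spEquiv p v t A)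
    (fun x y hy => ?_)
  change (y : (sp p v t A).V) ⟨0, by omega⟩ = A.ρ g ((x : (sp p v t A).V) ⟨0, by omega⟩)
  rw [hy]
  change om p v g ^ 0 • A.ρ g _ = _
  rw [pow_zero, one_smul]
  rfl

end iso

section avg

variable {A : WD W} (hN : ∀ g x, A.N (A.ρ g x) = om p v g • A.ρ g (A.N x)) {Fr : W}
  {J : Subgroup W} (hJA : ∀ j ∈ J, A.ρ j = 1)
  [hfin : Finite (v.ker ⧸ J.subgroupOf v.ker)]

/-- the trace of `Fr ^ n` on the inertia invariants as an average -/
noncomputable def avgVal (v : W →* Multiplicative ℤ) (Fr : W) (J : Subgroup W) (r : W → ℂ)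
    (n : ℕ) : ℂ :=
  (Nat.card (v.ker ⧸ J.subgroupOf v.ker) : ℂ)⁻¹ *
    ∑ᶠ x : v.ker ⧸ J.subgroupOf v.ker, r (Fr ^ n * ((x.out : v.ker) : W))

include hN hJA hfin in
theorem trace_avg [FiniteDimensional ℂ A.V] (n : ℕ) :
    LinearMap.trace ℂ _ (res (A.ρ Fr) (inv v A) ^ n) =
      avgVal v Fr J (fun g => tr (A.ρ g) (LinearMap.ker A.N)) n := by
  classical
  have : Fintype (v.ker ⧸ J.subgroupOf v.ker) := Fintype.ofFinite _
  set Q := v.ker ⧸ J.subgroupOf v.ker with hQ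
  set K := LinearMap.ker A.N with hK
  have hst : ∀ g, ∀ x ∈ K, A.ρ g x ∈ K := ker_stable' hN
  have hinv := inv_stable hN Fr
  have hle : inv v A ≤ K := fun x hx => hx.1
  have hcard : (Nat.card Q : ℂ) ≠ 0 := by
    have : Nonempty Q := ⟨((1 : v.ker) : Q)⟩
    exact_mod_cast Nat.card_pos.ne'
  -- the average
  let e : End ℂ K := (Nat.card Q : ℂ)⁻¹ • ∑ x : Q, res (A.ρ ((x.out : v.ker) : W)) K
  have he : ∀ x : K, (e x : A.V) =
      (Nat.card Q : ℂ)⁻¹ • ∑ y : Q, A.ρ ((y.out : v.ker) : W) x := by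
    intro x
    change (((Nat.card Q : ℂ)⁻¹ • (∑ y : Q, res (A.ρ ((y.out : v.ker) : W)) K)) x : A.V) = _
    rw [LinearMap.smul_apply, Submodule.coe_smul, LinearMap.sum_apply, Submodule.coe_sum]
    congr 1
    exact Finset.sum_congr rfl fun y _ => res_apply (hst _) x
  have hout : ∀ (u : v.ker), A.ρ ((((u : Q).out : v.ker)) : W) = A.ρ (u : W) := by
    intro u
    have h1 : (((u : Q).out : v.ker) : Q) = (u : Q) := Quotient.out_eq' _
    rw [QuotientGroup.eq, Subgroup.mem_subgroupOf] at h1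
    have h2 := hJA _ h1
    have h3 : A.ρ (u : W) = A.ρ ((((u : Q).out : v.ker)) : W) *
        A.ρ ((((((u : Q).out : v.ker))⁻¹ * u : v.ker)) : W) := by
      rw [← map_mul]
      congr 1
      push_cast
      group
    rw [h3, h2, mul_one]
  have hmem : ∀ x : K, (e x : A.V) ∈ inv v A := by
    intro x
    refine ⟨(e x).2, fun u hu => ?_⟩
    change A.ρ u (e x : A.V) = e x
    rw [he, map_smul, map_sum]
    congr 1
    let u' : v.ker := ⟨u, hu⟩
    refine Fintype.sum_equiv (MulAction.toPerm u' : Equiv.Perm Q) _ _ fun y => ?_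
    rw [← End.mul_apply, ← map_mul]
    have h1 : (MulAction.toPerm u' y : Q) = ((u' * (y.out : v.ker) : v.ker) : Q) := by
      conv_lhs => rw [← Quotient.out_eq' y]
      rfl
    rw [h1, hout]
    rfl
  have hfix : ∀ x : K, (x : A.V) ∈ inv v A → e x = x := by
    intro x hx
    apply Subtype.ext
    have h5 : ∀ y : Q, A.ρ ((y.out : v.ker) : W) (x : A.V) = x :=
      fun y => hx.2 _ (MonoidHom.mem_ker.1 (y.out : v.ker).2)
    rw [he, Finset.sum_congr rfl fun y _ => h5 y, Finset.sum_const,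
      Finset.card_univ, ← Nat.cast_smul_eq_nsmul ℂ, smul_smul, Nat.card_eq_fintype_card,
      inv_mul_cancel₀ (by rw [← Nat.card_eq_fintype_card]; exact hcard), one_smul]
  -- the operator
  have hpow : ∀ (n : ℕ) (x : inv v A), (((res (A.ρ Fr) (inv v A) ^ n) x : inv v A) : A.V) =
      A.ρ (Fr ^ n) x := by
    intro n
    induction n with
    | zero => intro x; rw [pow_zero, pow_zero, map_one]; rfl
    | succ n ih => intro x; rw [pow_succ, End.mul_apply, ih, res_apply hinv, ← End.mul_apply,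
        ← map_mul, ← pow_succ]
  let T : End ℂ K := res (A.ρ (Fr ^ n)) K * e
  let I' : Submodule ℂ K := (inv v A).comap K.subtype
  have hT : ∀ x, T x ∈ I' := by
    intro x
    change (res (A.ρ (Fr ^ n)) K (e x) : A.V) ∈ inv v A
    rw [res_apply (hst _)]
    exact inv_stable hN _ _ (hmem x)
  have h1 := LinearMap.trace_restrict_eq_of_forall_mem I' T hT
  have h2 : LinearMap.trace ℂ _ (res (A.ρ Fr) (inv v A) ^ n) =
      LinearMap.trace ℂ I' (T.restrict fun x _ => hT x) := by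
    let E : inv v A ≃ₗ[ℂ] I' := (Submodule.comapSubtypeEquivOfLe hle).symm
    have hE : ∀ x : inv v A, (((E x : I') : K) : A.V) = x := by
      intro x
      have h3 := Submodule.comapSubtypeEquivOfLe_apply_coe hle (E x)
      rw [← h3]
      change (((Submodule.comapSubtypeEquivOfLe hle)
        ((Submodule.comapSubtypeEquivOfLe hle).symm x) : inv v A) : A.V) = x
      rw [LinearEquiv.apply_symm_apply]
    refine trace_conj_eq E _ _ fun x => ?_
    apply Subtype.ext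
    apply Subtype.ext
    rw [hE, hpow]
    change _ = ((res (A.ρ (Fr ^ n)) K (e ((E x : I') : K)) : K) : A.V)
    have h4 : (((E x : I') : K) : A.V) ∈ inv v A := (E x).2
    rw [res_apply (hst _), hfix _ h4, hE]
  rw [h2, h1]
  have h3 : T = (Nat.card Q : ℂ)⁻¹ •
      ∑ x : Q, res (A.ρ (Fr ^ n * ((x.out : v.ker) : W))) K := by
    change res (A.ρ (Fr ^ n)) K * ((Nat.card Q : ℂ)⁻¹ • ∑ x : Q, _) = _
    rw [mul_smul_comm, Finset.mul_sum]
    congr 1
    refine Finset.sum_congr rfl fun x _ => ?_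
    refine LinearMap.ext fun y => Subtype.ext ?_
    rw [End.mul_apply, res_apply (hst _), res_apply (hst _), res_apply (hst _), map_mul,
      End.mul_apply]
  rw [h3, map_smul, map_sum, avgVal, smul_eq_mul, finsum_eq_sum_of_fintype]
  rfl

end avg

end Pool.Agent.N522.EF
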