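import Mathlib

/-!
# Local Euler factors of motives: definitions

`p` is a prime number, `W` the Weil group of `ℚ_p` and `v : W → ℤ` the valuation, with value `1` at the
geometric Frobenius elements; its kernel is the inertia group. For every prime `ℓ ≠ p` an isomorphism of
an algebraic closure of `ℚ_ℓ` with `ℂ` is fixed, and the coefficients of the `ℓ`-adic representations
are extended to `ℂ`. By Grothendieck's monodromy theorem the restriction of an `ℓ`-adic representation to
`W` is given by a Weil-Deligne representation.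
-/

set_option autoImplicit false

namespace Pool.Agent.N522.EF

open Module Polynomial

noncomputable section

/-- A Weil-Deligne representation: a representation `ρ` of the Weil group on `V` and a monodromy
operator `N`. -/
structure WD (W : Type) [Group W] where
  V : Type
  [grp : AddCommGroup V]
  [mod : Module ℂ V]
  ρ : W →* End ℂ V
  N : End ℂ V

attribute [instance] WD.grp WD.mod

/-- `v : W → ℤ` has the properties of the valuation of the Weil group of a local field: it is
surjective, and its kernel, the inertia group, is open and compact. -/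
structure IsWeil {W : Type} [Group W] [TopologicalSpace W] (v : W →* Multiplicative ℤ) : Prop where
  surjective : Function.Surjective v
  isOpen : IsOpen (v.ker : Set W)
  isCompact : IsCompact (v.ker : Set W)

variable {W : Type} [Group W] [TopologicalSpace W] (p : ℕ) [Fact p.Prime]
  (v : W →* Multiplicative ℤ)

omit [TopologicalSpace W] in
/-- The action of `g` on `x`. -/
abbrev act (A : WD W) (g : W) (x : A.V) : A.V := A.ρ g x

/-- The unramified character with value `p` at the geometric Frobenius. -/
def om (g : W) : ℂ := (p : ℂ) ^ (v g).toAdd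

/-- The axioms of Weil-Deligne representations: `V` has finite dimension, the kernel of `ρ` is open, and
`N ρ(g) = p ^ v(g) ρ(g) N`. -/
structure IsWD (A : WD W) : Prop where
  finite : FiniteDimensional ℂ A.V
  smooth : IsOpen (A.ρ.ker : Set W)
  monodromy : ∀ g x, A.N (act A g x) = om p v g • act A g (A.N x)

omit [TopologicalSpace W] in
theorem om_mul (g h : W) : om p v (g * h) = om p v g * om p v h := by
  have hp : (p : ℂ) ≠ 0 := by exact_mod_cast (Fact.out : p.Prime).ne_zero
  rw [om, om, om, map_mul, toAdd_mul, zpow_add₀ hp]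

omit [TopologicalSpace W] [Fact p.Prime] in
theorem om_one : om p v 1 = 1 := by
  rw [om, map_one, toAdd_one, zpow_zero]

/-- `A` and `B` are isomorphic. -/
def Iso (A B : WD W) : Prop :=
  ∃ θ : A.V ≃ₗ[ℂ] B.V, (∀ g x, θ (act A g x) = act B g (θ x)) ∧ ∀ x, θ (A.N x) = B.N (θ x)

/-- The action of `g` on the functions on `W / H` with values in `A`: `(g φ)(x) = g φ(g⁻¹ x)`. -/
def permRho (H : Subgroup W) (A : WD W) (g : W) : End ℂ (W ⧸ H → A.V) :=
  LinearMap.pi fun x => A.ρ g ∘ₗ LinearMap.proj (g⁻¹ • x)

omit [TopologicalSpace W] in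
theorem permRho_one (H : Subgroup W) (A : WD W) : permRho H A 1 = 1 := by
  ext φ x
  simp [permRho]

omit [TopologicalSpace W] in
theorem permRho_mul (H : Subgroup W) (A : WD W) (g h : W) :
    permRho H A (g * h) = permRho H A g * permRho H A h := by
  refine LinearMap.ext fun φ => ?_
  funext x
  simp [permRho, mul_smul]

/-- `permRho` as a homomorphism. -/
def permHom (H : Subgroup W) (A : WD W) : W →* End ℂ (W ⧸ H → A.V) :=
  ⟨⟨permRho H A, permRho_one H A⟩, permRho_mul H A⟩

/-- `A ⊗ ℂ[W / H]`, the functions on `W / H` with values in `A`. -/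
def perm (H : Subgroup W) (A : WD W) : WD W where
  V := W ⧸ H → A.V
  ρ := permHom H A
  N := LinearMap.pi fun x => A.N ∘ₗ LinearMap.proj x

/-- The action of `g` on `∑_j φ(j) ⊗ e_j`, `j = 0, ..., t`, where `g e_j = p ^ (j v(g)) e_j`. -/
def spRho (t : ℕ) (A : WD W) (g : W) : End ℂ (Fin (t + 1) → A.V) :=
  LinearMap.pi fun j => om p v g ^ (j : ℕ) • (A.ρ g ∘ₗ LinearMap.proj j)

omit [TopologicalSpace W] [Fact p.Prime] in
theorem spRho_one (t : ℕ) (A : WD W) : spRho p v t A 1 = 1 := by
  ext φ x
  simp [spRho, om_one]

omit [TopologicalSpace W] in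
theorem spRho_mul (t : ℕ) (A : WD W) (g h : W) :
    spRho p v t A (g * h) = spRho p v t A g * spRho p v t A h := by
  refine LinearMap.ext fun φ => ?_
  funext x
  simp [spRho, om_mul, mul_pow, mul_smul]

/-- `spRho` as a homomorphism. -/
def spHom (t : ℕ) (A : WD W) : W →* End ℂ (Fin (t + 1) → A.V) :=
  ⟨⟨spRho p v t A, spRho_one p v t A⟩, spRho_mul p v t A⟩

/-- `N` on `∑_j φ(j) ⊗ e_j`, `j = 0, ..., t`, where `N e_j = e_(j - 1)` and `N e_0 = 0`. -/
def spFun (t : ℕ) (A : WD W) (φ : Fin (t + 1) → A.V) (j : Fin (t + 1)) : A.V :=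
  A.N (φ j) + if h : (j : ℕ) + 1 < t + 1 then φ ⟨j + 1, h⟩ else 0

omit [TopologicalSpace W] in
theorem spFun_add (t : ℕ) (A : WD W) (φ ψ : Fin (t + 1) → A.V) :
    spFun t A (φ + ψ) = spFun t A φ + spFun t A ψ := by
  funext x
  simp only [spFun, Pi.add_apply, map_add]
  split_ifs
  · abel
  · simp

omit [TopologicalSpace W] in
theorem spFun_smul (t : ℕ) (A : WD W) (c : ℂ) (φ : Fin (t + 1) → A.V) :
    spFun t A (c • φ) = c • spFun t A φ := by
  funext x
  simp only [spFun, Pi.smul_apply, map_smul, smul_add]
  split_ifs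
  · rfl
  · simp

/-- The linear map `spFun`. -/
def spN (t : ℕ) (A : WD W) : End ℂ (Fin (t + 1) → A.V) :=
  ⟨⟨spFun t A, spFun_add t A⟩, spFun_smul t A⟩

/-- The tensor product of `A` with the Weil-Deligne representation `Sp(t + 1)`, which has a basis `e_j`,
`j = 0, ..., t`, with `g e_j = p ^ (j v(g)) e_j`, `N e_j = e_(j - 1)` and `N e_0 = 0`; the function `φ`
stands for `∑_j φ(j) ⊗ e_j`. -/
def sp (t : ℕ) (A : WD W) : WD W where
  V := Fin (t + 1) → A.V
  ρ := spHom p v t A
  N := spN t A

/-- The subspace on which the inertia group acts trivially: `ρ(u)` for `u` in the inertia group is the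
identity, and `N` is zero. -/
def inv (A : WD W) : Submodule ℂ A.V where
  carrier := {x | A.N x = 0 ∧ ∀ u, v u = 1 → act A u x = x}
  add_mem' := by
    rintro x y ⟨h1, h2⟩ ⟨h3, h4⟩
    exact ⟨by rw [map_add, h1, h3, add_zero],
      fun u hu => (map_add (A.ρ u) x y).trans (congrArg₂ _ (h2 u hu) (h4 u hu))⟩
  zero_mem' := ⟨map_zero _, fun u _ => map_zero (A.ρ u)⟩
  smul_mem' := by
    rintro c x ⟨h1, h2⟩
    exact ⟨by rw [map_smul, h1, smul_zero],
      fun u hu => (map_smul (A.ρ u) c x).trans (congrArg _ (h2 u hu))⟩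

/-- `det(1 - T g | U) = P`: the subspace `U` has a basis `b` and is mapped to itself by `g`, and
`det(1 - T A) = P` for the matrix `A` of `g` with respect to `b`. -/
def IsDet {V : Type} [AddCommGroup V] [Module ℂ V] (g : End ℂ V) (U : Submodule ℂ V) (P : ℂ[X]) :
    Prop :=
  ∃ (n : ℕ) (b : Basis (Fin n) ℂ U) (A : Matrix (Fin n) (Fin n) ℂ),
    (∀ j, g (b j) = ∑ i, A i j • (b i : V)) ∧ (1 - (X : ℂ[X]) • A.map C).det = P

/-- A class of motives over `ℚ` with their `ℓ`-adic realizations at `p`. -/
structure Motives (W : Type) [Group W] where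
  /-- the motives -/
  Mot : Type
  /-- the primes different from `p` -/
  Ell : Type
  /-- the Weil-Deligne representation of `V^i_ℓ(M)` -/
  V : Mot → ℤ → Ell → WD W

/-- The properties of the class of motives that are used; all of them are known for the class of all
Chow motives over `ℚ` with rational coefficients. -/
structure IsMotives (T : Motives W) : Prop where
  wd : ∀ M i l, IsWD p v (T.V M i l)
  /-- `M ⊗ h(Spec L)` for a number field `L` with one place above `p`, `W / H` being the set of the
  embeddings of the completion -/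
  perm : ∀ M (H : Subgroup W), IsOpen (H : Set W) → H.FiniteIndex →
    ∃ M', ∀ i l, Iso (T.V M' i l) (perm H (T.V M i l))
  /-- `M ⊗ Sym ^ t h^1(E)` for an elliptic curve `E` over `ℚ` with split multiplicative reduction at
  `p` -/
  tate : ∀ M (t : ℕ), ∃ M', ∀ i l, Iso (T.V M' (i + t) l) (sp p v t (T.V M i l))

variable (Fr : W)

/-- The statement of the problem at `p`, for all motives of the class: the local factors
`det(1 - T Fr | V^i_ℓ(M)^I)` have rational coefficients and do not depend on `ℓ`. -/
def EulerIndependence (T : Motives W) : Prop :=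
  ∀ M i, ∃ P : ℚ[X], ∀ l, IsDet ((T.V M i l).ρ Fr) (inv v (T.V M i l)) (P.map (algebraMap ℚ ℂ))

/-- The Weil-Deligne representations do not depend on `ℓ`, up to semisimplification of the Frobenius:
for all elements `g` of the Weil group and all `k` the polynomial `det(1 - T g | ker N ^ k)` has rational
coefficients and does not depend on `ℓ`. -/
def WeilDeligneIndependence (T : Motives W) : Prop :=
  ∀ M i k g, ∃ P : ℚ[X], ∀ l, IsDet ((T.V M i l).ρ g) (LinearMap.ker ((T.V M i l).N ^ k))
    (P.map (algebraMap ℚ ℂ))

/-- The weight-monodromy conjecture for a Weil-Deligne representation of weight `w`: for all `t` the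
operator `N ^ t` is an isomorphism of the part of weight `w + t` onto the part of weight `w - t`, that
is, for all `α` of absolute value `p ^ ((w + t) / 2)` an isomorphism of the generalised eigenspace of the
Frobenius for `α` onto that for `α / p ^ t`. -/
def WeightMonodromy (A : WD W) (w : ℤ) : Prop :=
  ∀ (t : ℕ) (α : ℂ), ‖α‖ ^ 2 = (p : ℝ) ^ (w + t) →
    Set.BijOn (A.N ^ t) ((A.ρ Fr).maxGenEigenspace α) ((A.ρ Fr).maxGenEigenspace (α / (p : ℂ) ^ t))

end

end Pool.Agent.N522.EF
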