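import Pool.Agent.TH658.Eq.Newt
import Pool.Agent.N522.EF.Defs

/-!
# Traces of powers and the polynomials `det(1 - T g)`
-/

set_option autoImplicit false

namespace Pool.Agent.N522.EF

open Module Polynomial

section newton

/-- the coefficients given by Newton's identities -/
noncomputable def cf (s : ℕ → ℚ) : ℕ → ℚ
  | 0 => 1
  | k + 1 => -(∑ i : Fin (k + 1), cf s i.1 * s (k - i.1 + 1)) / ((k : ℚ) + 1)
decreasing_by exact i.2

theorem cf_zero (s : ℕ → ℚ) : cf s 0 = 1 := by rw [cf]

theorem cf_succ (s : ℕ → ℚ) (k : ℕ) : cf s (k + 1) * ((k : ℚ) + 1) =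
    - ∑ p ∈ Finset.HasAntidiagonal.antidiagonal k, cf s p.1 * s (p.2 + 1) := by
  have hk : ((k : ℚ) + 1) ≠ 0 := by exact_mod_cast Nat.succ_ne_zero k
  rw [cf, div_mul_cancel₀ _ hk, Finset.Nat.sum_antidiagonal_eq_sum_range_succ
    (fun i j => cf s i * s (j + 1)) k, Finset.sum_range]

theorem coeff_eq {L : Type} [Field L] [CharZero L] {m : ℕ} (A : Matrix (Fin m) (Fin m) L)
    (s : ℕ → ℚ) (hs : ∀ k, (A ^ (k + 1)).trace = (s (k + 1) : L)) (k : ℕ) :
    A.charpolyRev.coeff k = (cf s k : L) := by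
  induction k using Nat.strong_induction_on with
  | _ k ih =>
    rcases k with _ | k
    · rw [coeff_zero_eq_eval_zero, Matrix.eval_charpolyRev, cf_zero, Rat.cast_one]
    · have hk : ((k : L) + 1) ≠ 0 := by exact_mod_cast Nat.succ_ne_zero k
      refine mul_right_cancel₀ hk ?_
      rw [Pool.Agent.TH658.Eq.newton]
      have h1 : ((cf s (k + 1) * ((k : ℚ) + 1) : ℚ) : L) = ((- ∑ p ∈
          Finset.HasAntidiagonal.antidiagonal k, cf s p.1 * s (p.2 + 1) : ℚ) : L) := by
        rw [cf_succ]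
      push_cast at h1
      rw [h1]
      congr 1
      refine Finset.sum_congr rfl fun p hp => ?_
      have h3 := (Finset.HasAntidiagonal.mem_antidiagonal.mp hp)
      rw [ih p.1 (by omega), hs]

/-- the power sums given by Newton's identities: `tn c k` is the trace of the `k + 1`-st power -/
noncomputable def tn (c : ℕ → ℚ) : ℕ → ℚ
  | k => -(c (k + 1) * ((k : ℚ) + 1)) - ∑ i : Fin k, c (k - i.1) * tn c i.1
decreasing_by exact i.2

theorem trace_eq_tn {L : Type} [Field L] {m : ℕ} (A : Matrix (Fin m) (Fin m) L)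
    [CharZero L] (c : ℕ → ℚ) (hc : ∀ k, A.charpolyRev.coeff k = (c k : L)) (k : ℕ) :
    (A ^ (k + 1)).trace = (tn c k : L) := by
  induction k using Nat.strong_induction_on with
  | _ k ih =>
    have h1 := Pool.Agent.TH658.Eq.newton A k
    rw [Finset.Nat.sum_antidiagonal_eq_sum_range_succ
      (fun i j => A.charpolyRev.coeff i * (A ^ (j + 1)).trace) k, ← Finset.sum_range_reflect,
      Finset.sum_range_succ] at h1
    have h2 : A.charpolyRev.coeff 0 = 1 := by
      rw [coeff_zero_eq_eval_zero, Matrix.eval_charpolyRev]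
    have h3 : k + 1 - 1 - k = 0 := by omega
    rw [h3, h2, one_mul, Nat.sub_zero] at h1
    have h4 : ∑ x ∈ Finset.range k, A.charpolyRev.coeff (k + 1 - 1 - x) *
        (A ^ (k - (k + 1 - 1 - x) + 1)).trace = ∑ i : Fin k, (c (k - i.1) : L) * (tn c i.1 : L) := by
      rw [← Fin.sum_univ_eq_sum_range (fun x => A.charpolyRev.coeff (k + 1 - 1 - x) *
        (A ^ (k - (k + 1 - 1 - x) + 1)).trace) k]
      refine Finset.sum_congr rfl fun i _ => ?_
      have h5 : k - (k + 1 - 1 - i.1) = i.1 := by omega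
      have h6 : k + 1 - 1 - i.1 = k - i.1 := by omega
      rw [h5, h6, ih i.1 i.2, hc]
    rw [h4, hc] at h1
    rw [tn]
    push_cast
    linear_combination h1

end newton

section det

variable {V : Type} [AddCommGroup V] [Module ℂ V]

/-- The matrix in `IsDet` is that of the restriction. -/
theorem toLin_eq {g : End ℂ V} {U : Submodule ℂ V} (hU : ∀ x ∈ U, g x ∈ U) {n : ℕ}
    (b : Basis (Fin n) ℂ U) (A : Matrix (Fin n) (Fin n) ℂ)
    (hA : ∀ j, g (b j) = ∑ i, A i j • (b i : V)) : g.restrict hU = Matrix.toLin b b A := by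
  refine b.ext fun j => Subtype.ext ?_
  rw [Matrix.toLin_self, LinearMap.restrict_apply]
  change g (b j) = _
  rw [hA, Submodule.coe_sum]
  rfl

theorem toMatrix_spec {g : End ℂ V} {U : Submodule ℂ V} (hU : ∀ x ∈ U, g x ∈ U) {n : ℕ}
    (b : Basis (Fin n) ℂ U) (j : Fin n) :
    g (b j) = ∑ i, LinearMap.toMatrix b b (g.restrict hU) i j • (b i : V) := by
  have h := congrArg Subtype.val (b.sum_repr (g.restrict hU (b j)))
  rw [Submodule.coe_sum] at h
  refine h.symm.trans (Finset.sum_congr rfl fun i _ => ?_)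
  rw [LinearMap.toMatrix_apply]
  rfl

/-- The traces of the powers from `det(1 - T g | U)`. -/
theorem trace_of_isDet {g : End ℂ V} {U : Submodule ℂ V} (hU : ∀ x ∈ U, g x ∈ U) {P : ℚ[X]}
    (h : IsDet g U (P.map (algebraMap ℚ ℂ))) (k : ℕ) :
    LinearMap.trace ℂ U ((g.restrict hU) ^ (k + 1)) = (tn P.coeff k : ℂ) := by
  obtain ⟨n, b, A, hA, hP⟩ := h
  rw [toLin_eq hU b A hA, LinearMap.trace_eq_matrix_trace ℂ b, ← LinearMap.toMatrix_pow,
    LinearMap.toMatrix_toLin]
  refine trace_eq_tn A P.coeff (fun k => ?_) k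
  change (1 - (X : ℂ[X]) • A.map C).det.coeff k = _
  rw [hP, coeff_map]
  rfl

/-- `det(1 - T g | U)` from the traces of the powers. -/
theorem isDet_of_trace {g : End ℂ V} {U : Submodule ℂ V} [FiniteDimensional ℂ U]
    (hU : ∀ x ∈ U, g x ∈ U) (s : ℕ → ℚ)
    (hs : ∀ k, LinearMap.trace ℂ U ((g.restrict hU) ^ (k + 1)) = (s (k + 1) : ℂ)) {P : ℚ[X]}
    (hP : ∀ k, P.coeff k = cf s k) : IsDet g U (P.map (algebraMap ℚ ℂ)) := by
  let b := Module.finBasis ℂ U
  refine ⟨_, b, LinearMap.toMatrix b b (g.restrict hU), fun j => toMatrix_spec hU b j, ?_⟩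
  refine Polynomial.ext fun k => ?_
  rw [coeff_map, hP]
  refine (coeff_eq (LinearMap.toMatrix b b (g.restrict hU)) s (fun k => ?_) k).trans rfl
  rw [LinearMap.toMatrix_pow, ← LinearMap.trace_eq_matrix_trace ℂ b, hs]

theorem exists_poly {U : Type} [AddCommGroup U] [Module ℂ U] [FiniteDimensional ℂ U]
    (f : End ℂ U) (s : ℕ → ℚ) (hs : ∀ k, LinearMap.trace ℂ U (f ^ (k + 1)) = (s (k + 1) : ℂ)) :
    ∃ P : ℚ[X], ∀ k, P.coeff k = cf s k := by
  let b := Module.finBasis ℂ U
  have h1 : ∀ k, (LinearMap.toMatrix b b f).charpolyRev.coeff k = (cf s k : ℂ) := by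
    refine coeff_eq (LinearMap.toMatrix b b f) s (fun k => ?_)
    rw [LinearMap.toMatrix_pow, ← LinearMap.trace_eq_matrix_trace ℂ b, hs]
  set Q := (LinearMap.toMatrix b b f).charpolyRev with hQ
  refine ⟨∑ k ∈ Finset.range (Q.natDegree + 1), monomial k (cf s k), fun k => ?_⟩
  rw [finsetSum_coeff]
  simp only [coeff_monomial]
  rw [Finset.sum_ite_eq' (Finset.range (Q.natDegree + 1)) k]
  by_cases hk : k ∈ Finset.range (Q.natDegree + 1)
  · rw [if_pos hk]
  · rw [if_neg hk]
    rw [Finset.mem_range, not_lt] at hk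
    have h2 := coeff_eq_zero_of_natDegree_lt (show Q.natDegree < k by omega)
    rw [h1] at h2
    exact_mod_cast h2.symm

/-- The theorem of Cayley and Hamilton, multiplied with another operator. -/
theorem cayley {U : Type} [AddCommGroup U] [Module ℂ U] {n : ℕ}
    (b : Basis (Fin n) ℂ U) (c g : End ℂ U) (hc : IsUnit c) :
    (LinearMap.toMatrix b b c).charpolyRev.natDegree = n ∧
    (LinearMap.toMatrix b b c).charpolyRev.coeff n ≠ 0 ∧
    ∑ j ∈ Finset.range (n + 1), (LinearMap.toMatrix b b c).charpolyRev.coeff j *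
      LinearMap.trace ℂ U (c ^ (n - j) * g) = 0 := by
  set A := LinearMap.toMatrix b b c with hA
  have hdeg : A.charpoly.natDegree = n := by
    rw [Matrix.charpoly_natDegree_eq_dim, Fintype.card_fin]
  have hrev : ∀ j ≤ n, A.charpolyRev.coeff j = A.charpoly.coeff (n - j) := by
    intro j hj
    rw [← Matrix.reverse_charpoly, coeff_reverse, hdeg, revAt_le hj]
  have h0 : A.charpoly.coeff 0 ≠ 0 := by
    intro h0
    have h1 := Matrix.det_eq_sign_charpoly_coeff A
    rw [h0, mul_zero] at h1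
    have h2 : IsUnit A.det := by
      rw [← Matrix.isUnit_iff_isUnit_det]
      exact hc.map (LinearMap.toMatrixAlgEquiv b)
    rw [h1] at h2
    exact not_isUnit_zero h2
  have hn : A.charpolyRev.coeff n ≠ 0 := by
    rw [hrev n le_rfl, Nat.sub_self]; exact h0
  refine ⟨?_, hn, ?_⟩
  · refine le_antisymm ?_ (le_natDegree_of_ne_zero hn)
    rw [← Matrix.reverse_charpoly]
    exact (reverse_natDegree_le _).trans hdeg.le
  · have h1 : aeval c A.charpoly = 0 := by
      have : Module.Finite ℂ U := Module.Finite.of_basis b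
      have h2 := LinearMap.aeval_self_charpoly c
      have h3 : A.charpoly = c.charpoly := LinearMap.charpoly_toMatrix c b
      rw [h3]
      exact h2
    have h2 : ∑ j ∈ Finset.range (n + 1), A.charpoly.coeff j • c ^ j = 0 := by
      rw [← h1, aeval_eq_sum_range, hdeg]
    have h3 : LinearMap.trace ℂ U ((∑ j ∈ Finset.range (n + 1), A.charpoly.coeff j • c ^ j) * g) = 0 := by
      rw [h2, zero_mul, map_zero]
    rw [Finset.sum_mul, map_sum, ← Finset.sum_range_reflect] at h3
    rw [← h3]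
    refine Finset.sum_congr rfl fun j hj => ?_
    rw [Finset.mem_range] at hj
    rw [hrev j (by omega), smul_mul_assoc, map_smul, smul_eq_mul,
      show n + 1 - 1 - j = n - j by omega]

end det

end Pool.Agent.N522.EF
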