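import Pool.Agent.N522.EF.Avg

/-!
# Independence of `ℓ` of the local Euler factors and of the Weil-Deligne representations
-/

set_option autoImplicit false

namespace Pool.Agent.N522.EF

open Module Polynomial

section group

variable {W : Type} [Group W] {v : W →* Multiplicative ℤ}

/-- the elements of the inertia group that act trivially on `A` and `B` -/
def com (v : W →* Multiplicative ℤ) (A B : WD W) : Subgroup W := A.ρ.ker ⊓ B.ρ.ker ⊓ v.ker

theorem com_conj {A B : WD W} {j : W} (hj : j ∈ com v A B) (g : W) :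
    g * j * g⁻¹ ∈ com v A B :=
  ⟨⟨A.ρ.normal_ker.conj_mem j hj.1.1 g, B.ρ.normal_ker.conj_mem j hj.1.2 g⟩,
    v.normal_ker.conj_mem j hj.2 g⟩

theorem finiteIndex {J : Subgroup W} (hJn : ∀ j ∈ J, ∀ g, g * j * g⁻¹ ∈ J)
    [Finite (v.ker ⧸ J.subgroupOf v.ker)] {g Fr : W} {f : ℕ} (hf : 0 < f)
    (hg : (v g).toAdd = f) (hFr : (v Fr).toAdd = 1) :
    (Subgroup.zpowers g ⊔ J).FiniteIndex := by
  set H := Subgroup.zpowers g ⊔ J with hH
  have hgH : g ∈ H := Subgroup.mem_sup_left (Subgroup.mem_zpowers g)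
  have hJH : J ≤ H := le_sup_right
  have hsurj : Function.Surjective (fun x : (v.ker ⧸ J.subgroupOf v.ker) × Fin f =>
      (((x.1.out : v.ker) : W) * Fr ^ (x.2 : ℕ) : W ⧸ H)) := by
    intro y
    induction y using QuotientGroup.induction_on with
    | H w =>
      set z := (v w).toAdd with hz
      set a := idx hf z with ha
      have h2 : v (w * g ^ (-(z / f)) * (Fr ^ (a : ℕ))⁻¹) = 1 := by
        apply Multiplicative.toAdd.injective
        rw [map_mul v, map_mul v, map_zpow v, map_inv v, map_pow v, toAdd_mul, toAdd_mul,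
          toAdd_zpow, toAdd_inv, toAdd_pow, hg, hFr, ← hz, toAdd_one, ha, nsmul_eq_mul, idx_cast,
          mul_one, smul_eq_mul]
        have h5 := Int.mul_ediv_add_emod z f
        linarith
      let u : v.ker := ⟨w * g ^ (-(z / f)) * (Fr ^ (a : ℕ))⁻¹, h2⟩
      refine ⟨((u : v.ker ⧸ J.subgroupOf v.ker), a), ?_⟩
      have h3 : (((u : v.ker ⧸ J.subgroupOf v.ker).out : v.ker) : v.ker ⧸ J.subgroupOf v.ker) =
        (u : v.ker ⧸ J.subgroupOf v.ker) := Quotient.out_eq' _
      rw [QuotientGroup.eq, Subgroup.mem_subgroupOf] at h3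
      rw [← mk_mul_zpow hgH w (-(z / f))]
      change ((((u : v.ker ⧸ J.subgroupOf v.ker).out : v.ker) * Fr ^ (a : ℕ) : W) : W ⧸ H) = _
      rw [QuotientGroup.eq]
      have h4 := hJn _ h3 ((Fr ^ (a : ℕ))⁻¹)
      have h5 := hJH h4
      have h6 : (((u : v.ker ⧸ J.subgroupOf v.ker).out : v.ker) * Fr ^ (a : ℕ) : W)⁻¹ *
          (w * g ^ (-(z / f))) = (Fr ^ (a : ℕ))⁻¹ *
            ((((u : v.ker ⧸ J.subgroupOf v.ker).out⁻¹ * u : v.ker)) : W) * (Fr ^ (a : ℕ))⁻¹⁻¹ := by
        change _ = (Fr ^ (a : ℕ))⁻¹ * (((u : v.ker ⧸ J.subgroupOf v.ker).out : W)⁻¹ *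
          (w * g ^ (-(z / f)) * (Fr ^ (a : ℕ))⁻¹)) * (Fr ^ (a : ℕ))⁻¹⁻¹
        group
      rw [h6]
      exact h5
  have := Finite.of_surjective _ hsurj
  exact Subgroup.finiteIndex_of_finite_quotient

variable [TopologicalSpace W] {p : ℕ}

theorem com_open (hW : IsWeil v) {A B : WD W} (hA : IsWD p v A) (hB : IsWD p v B) :
    IsOpen (com v A B : Set W) :=
  (hA.smooth.inter hB.smooth).inter hW.isOpen

theorem com_finite [IsTopologicalGroup W] (hW : IsWeil v) {A B : WD W} (hA : IsWD p v A) (hB : IsWD p v B) :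
    Finite (v.ker ⧸ (com v A B).subgroupOf v.ker) := by
  have : CompactSpace v.ker := isCompact_iff_compactSpace.1 hW.isCompact
  exact Subgroup.quotient_finite_of_isOpen _ (Subgroup.subgroupOf_isOpen _ _ (com_open hW hA hB))

end group

section main

variable {W : Type} [Group W] [TopologicalSpace W] [IsTopologicalGroup W] {p : ℕ} [Fact p.Prime]
  {v : W →* Multiplicative ℤ} (hW : IsWeil v) {Fr : W} (hFr : (v Fr).toAdd = 1)
  {T : Motives W} (hT : IsMotives p v T)

include hW hFr hT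

theorem pos_pair (hE : EulerIndependence v Fr T) (M : T.Mot) (i : ℤ) (t : ℕ) (g : W) {f : ℕ}
    (hf : 0 < f) (hg : (v g).toAdd = f) (l l' : T.Ell) :
    ∃ q : ℚ, tr ((T.V M i l).ρ g) (LinearMap.ker ((T.V M i l).N ^ (t + 1))) = q ∧
      tr ((T.V M i l').ρ g) (LinearMap.ker ((T.V M i l').N ^ (t + 1))) = q := by
  obtain ⟨M', hM'⟩ := hT.tate M t
  set J := com v (T.V M' (i + t) l) (T.V M' (i + t) l') with hJ
  have hfin : Finite (v.ker ⧸ J.subgroupOf v.ker) := com_finite hW (hT.wd _ _ _) (hT.wd _ _ _)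
  have hind : (Subgroup.zpowers g ⊔ J).FiniteIndex :=
    finiteIndex (fun j hj g => com_conj hj g) hf hg hFr
  have hopen : IsOpen ((Subgroup.zpowers g ⊔ J : Subgroup W) : Set W) :=
    Subgroup.isOpen_mono le_sup_right (com_open hW (hT.wd _ _ _) (hT.wd _ _ _))
  obtain ⟨M'', hM''⟩ := hT.perm M' _ hopen hind
  obtain ⟨P, hP⟩ := hE M'' (i + t)
  have key : ∀ m : T.Ell, (∀ j ∈ J, (T.V M' (i + t) m).ρ j = 1) →
      tr ((T.V M i m).ρ g) (LinearMap.ker ((T.V M i m).N ^ (t + 1))) =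
        ((tn P.coeff (f - 1) / f : ℚ) : ℂ) := by
    intro m hm
    have h0 := (hT.wd M i m).monodromy
    have h1 := (hT.wd M' (i + t) m).monodromy
    have h2 := (hT.wd M'' (i + t) m).monodromy
    have hfd := (hT.wd M' (i + t) m).finite
    have h3' : ∀ g' x, (perm (Subgroup.zpowers g ⊔ J) (T.V M' (i + t) m)).N
        ((perm (Subgroup.zpowers g ⊔ J) (T.V M' (i + t) m)).ρ g' x) = om p v g' •
        (perm (Subgroup.zpowers g ⊔ J) (T.V M' (i + t) m)).ρ g'
          ((perm (Subgroup.zpowers g ⊔ J) (T.V M' (i + t) m)).N x) := by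
      intro g' x
      funext y
      exact h1 g' _
    have h4 := trace_of_isDet (inv_stable h2 Fr) (hP m) (f - 1)
    rw [← res_eq (inv_stable h2 Fr), Nat.sub_add_cancel hf,
      trace_iso_inv h2 h3' (hM'' (i + t) m) Fr f,
      trace_perm (J := J) h1 hf hg hFr (fun j hj => MonoidHom.mem_ker.1 hj.2) hm] at h4
    rw [← tr_sp h0 t g, ← tr_iso_ker h1 (sp_mono h0 t) (hM' i m) g]
    have hf0 : (f : ℂ) ≠ 0 := by exact_mod_cast hf.ne'
    push_cast
    rw [eq_div_iff hf0, mul_comm]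
    exact h4
  exact ⟨tn P.coeff (f - 1) / f, key l fun j hj => MonoidHom.mem_ker.1 hj.1.1,
    key l' fun j hj => MonoidHom.mem_ker.1 hj.1.2⟩

end main

section rv

variable {W : Type} [Group W] {p : ℕ} {v : W →* Multiplicative ℤ}

/-- the trace on `ker N ^ k` is rational and independent of `ℓ` -/
def RV (T : Motives W) (M : T.Mot) (i : ℤ) (k : ℕ) (g : W) : Prop :=
  ∃ q : ℚ, ∀ l, tr ((T.V M i l).ρ g) (LinearMap.ker ((T.V M i l).N ^ k)) = q

theorem res_mul {A : WD W} (hN : ∀ g x, A.N (A.ρ g x) = om p v g • A.ρ g (A.N x)) (k : ℕ)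
    (g h : W) : res (A.ρ (g * h)) (LinearMap.ker (A.N ^ k)) =
      res (A.ρ g) (LinearMap.ker (A.N ^ k)) * res (A.ρ h) (LinearMap.ker (A.N ^ k)) := by
  refine LinearMap.ext fun x => Subtype.ext ?_
  rw [End.mul_apply, res_apply (ker_stable hN k _), res_apply (ker_stable hN k _),
    res_apply (ker_stable hN k _), map_mul, End.mul_apply]

theorem res_one {A : WD W} (hN : ∀ g x, A.N (A.ρ g x) = om p v g • A.ρ g (A.N x)) (k : ℕ) :
    res (A.ρ 1) (LinearMap.ker (A.N ^ k)) = 1 := by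
  refine LinearMap.ext fun x => Subtype.ext ?_
  rw [res_apply (ker_stable hN k _), map_one, End.one_apply, End.one_apply]

theorem res_pow {A : WD W} (hN : ∀ g x, A.N (A.ρ g x) = om p v g • A.ρ g (A.N x)) (k : ℕ)
    (g : W) (n : ℕ) : res (A.ρ g) (LinearMap.ker (A.N ^ k)) ^ n =
      res (A.ρ (g ^ n)) (LinearMap.ker (A.N ^ k)) := by
  induction n with
  | zero => rw [pow_zero, pow_zero, res_one hN]
  | succ n ih => rw [pow_succ, ih, ← res_mul hN, ← pow_succ]

theorem res_unit {A : WD W} (hN : ∀ g x, A.N (A.ρ g x) = om p v g • A.ρ g (A.N x)) (k : ℕ)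
    (g : W) : IsUnit (res (A.ρ g) (LinearMap.ker (A.N ^ k))) := by
  refine ⟨⟨res (A.ρ g) (LinearMap.ker (A.N ^ k)), res (A.ρ g⁻¹) (LinearMap.ker (A.N ^ k)),
    ?_, ?_⟩, rfl⟩
  · rw [← res_mul hN, mul_inv_cancel, res_one hN]
  · rw [← res_mul hN, inv_mul_cancel, res_one hN]

end rv

section main2

variable {W : Type} [Group W] [TopologicalSpace W] [IsTopologicalGroup W] {p : ℕ} [Fact p.Prime]
  {v : W →* Multiplicative ℤ} (hW : IsWeil v) {Fr : W} (hFr : (v Fr).toAdd = 1)
  {T : Motives W} (hT : IsMotives p v T)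

include hW hFr hT in
theorem rv_pos (hE : EulerIndependence v Fr T) (M : T.Mot) (i : ℤ) (k : ℕ) (g : W)
    (hg : 0 < (v g).toAdd) : RV T M i k g := by
  rcases k with _ | t
  · refine ⟨0, fun l => ?_⟩
    have : Subsingleton (LinearMap.ker ((T.V M i l).N ^ 0)) := by
      refine ⟨?_⟩
      rintro ⟨x, hx⟩ ⟨y, hy⟩
      apply Subtype.ext
      rw [LinearMap.mem_ker, pow_zero, End.one_apply] at hx hy
      exact hx.trans hy.symm
    have h1 : res ((T.V M i l).ρ g) (LinearMap.ker ((T.V M i l).N ^ 0)) = 0 :=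
      LinearMap.ext fun x => Subsingleton.elim _ _
    rw [tr, h1, map_zero, Rat.cast_zero]
  · by_cases hE' : Nonempty T.Ell
    · obtain ⟨l0⟩ := hE'
      have hf : 0 < (v g).toAdd.toNat := by omega
      have hgf : (v g).toAdd = ((v g).toAdd.toNat : ℤ) := by omega
      obtain ⟨q, hq, -⟩ := pos_pair hW hFr hT hE M i t g hf hgf l0 l0
      refine ⟨q, fun l => ?_⟩
      obtain ⟨q', h1, h2⟩ := pos_pair hW hFr hT hE M i t g hf hgf l0 l
      rw [hq] at h1
      rw [h2, h1]
    · exact ⟨0, fun l => (hE' ⟨l⟩).elim⟩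

include hW hFr hT in
theorem rv_all (hE : EulerIndependence v Fr T) (M : T.Mot) (i : ℤ) (k : ℕ) (g : W) :
    RV T M i k g := by
  by_cases hE' : Nonempty T.Ell
  swap
  · exact ⟨0, fun l => (hE' ⟨l⟩).elim⟩
  obtain ⟨l0⟩ := hE'
  -- an element of large degree
  set s := (v g).toAdd.natAbs + 1 with hs
  set c := Fr ^ s with hc
  have hvc : (v c).toAdd = s := by rw [hc, map_pow v, toAdd_pow, hFr, nsmul_eq_mul, mul_one]
  have hvcn : ∀ n : ℕ, (v (c ^ n)).toAdd = n * s := by
    intro n; rw [map_pow v, toAdd_pow, hvc, nsmul_eq_mul]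
  have hpos : ∀ j : ℕ, RV T M i k (c ^ (j + 1)) := by
    intro j
    refine rv_pos hW hFr hT hE M i k _ ?_
    rw [hvcn]
    positivity
  choose r hr using hpos
  have hposg : ∀ j : ℕ, RV T M i k (c ^ (j + 1) * g) := by
    intro j
    refine rv_pos hW hFr hT hE M i k _ ?_
    rw [map_mul v, toAdd_mul, hvcn, hs]
    push_cast
    have h1 := neg_abs_le (v g).toAdd
    have h2 : 0 ≤ (j : ℤ) * |(v g).toAdd| := by positivity
    nlinarith
  choose r' hr' using hposg
  let sq : ℕ → ℚ := fun j => r (j - 1)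
  have hfd : ∀ l, FiniteDimensional ℂ (T.V M i l).V := fun l => (hT.wd M i l).finite
  have hcay : ∀ l, ∃ n : ℕ, ∃ Q : ℂ[X], (∀ j, Q.coeff j = (cf sq j : ℂ)) ∧ Q.natDegree = n ∧
      (cf sq n : ℂ) ≠ 0 ∧ (cf sq n : ℂ) *
        tr ((T.V M i l).ρ g) (LinearMap.ker ((T.V M i l).N ^ k)) +
          ∑ j ∈ Finset.range n, (cf sq j : ℂ) * (r' (n - j - 1) : ℂ) = 0 := by
    intro l
    have := hfd l
    have hN := (hT.wd M i l).monodromy
    set U := LinearMap.ker ((T.V M i l).N ^ k) with hU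
    let b := Module.finBasis ℂ U
    obtain ⟨h1, h2, h3⟩ := cayley b (res ((T.V M i l).ρ c) U) (res ((T.V M i l).ρ g) U)
      (res_unit hN k c)
    have h4 : ∀ j, (LinearMap.toMatrix b b (res ((T.V M i l).ρ c) U)).charpolyRev.coeff j =
        (cf sq j : ℂ) := by
      refine coeff_eq _ sq fun j => ?_
      rw [LinearMap.toMatrix_pow, ← LinearMap.trace_eq_matrix_trace ℂ b, hU, res_pow hN]
      exact hr j l
    refine ⟨_, _, h4, h1, ?_, ?_⟩
    · rw [← h4]; exact h2
    · rw [Finset.sum_range_succ, add_comm, h4, Nat.sub_self, pow_zero, one_mul] at h3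
      rw [← h3]
      congr 1
      refine Finset.sum_congr rfl fun j hj => ?_
      rw [Finset.mem_range] at hj
      rw [h4, hU, res_pow hN, ← res_mul hN]
      congr 1
      have h5 := hr' (finrank ℂ U - j - 1) l
      rw [show finrank ℂ U - j - 1 + 1 = finrank ℂ U - j by omega] at h5
      exact h5.symm
  obtain ⟨n, Q, hQ, hn, hne, hrel⟩ := hcay l0
  refine ⟨-(∑ j ∈ Finset.range n, cf sq j * r' (n - j - 1)) / cf sq n, fun l => ?_⟩
  obtain ⟨n', Q', hQ', hn', -, hrel'⟩ := hcay l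
  have hnn : n' = n := by
    rw [← hn, ← hn']
    congr 1
    exact Polynomial.ext fun j => by rw [hQ, hQ']
  subst hnn
  push_cast
  rw [eq_div_iff hne]
  linear_combination hrel'

omit [IsTopologicalGroup W] in
include hT in
theorem strong_of_rv (h : ∀ M i k g, RV T M i k g) : WeilDeligneIndependence T := by
  intro M i k g
  by_cases hE' : Nonempty T.Ell
  swap
  · exact ⟨0, fun l => (hE' ⟨l⟩).elim⟩
  obtain ⟨l0⟩ := hE'
  choose r hr using fun j : ℕ => h M i k (g ^ j)
  have hfd : ∀ l, FiniteDimensional ℂ (T.V M i l).V := fun l => (hT.wd M i l).finite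
  have h1 : ∀ l j, LinearMap.trace ℂ _ (res ((T.V M i l).ρ g)
      (LinearMap.ker ((T.V M i l).N ^ k)) ^ (j + 1)) = (r (j + 1) : ℂ) := by
    intro l j
    rw [res_pow (hT.wd M i l).monodromy]
    exact hr (j + 1) l
  obtain ⟨P, hP⟩ := exists_poly _ r (h1 l0)
  refine ⟨P, fun l => ?_⟩
  have hst := ker_stable (hT.wd M i l).monodromy k g
  refine isDet_of_trace hst r (fun j => ?_) hP
  rw [← res_eq hst]
  exact h1 l j

omit [IsTopologicalGroup W] in
include hT in
theorem rv_of_strong (h : WeilDeligneIndependence T) (M : T.Mot) (i : ℤ) (k : ℕ) (g : W) :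
    RV T M i k g := by
  obtain ⟨P, hP⟩ := h M i k g
  refine ⟨tn P.coeff 0, fun l => ?_⟩
  have hst := ker_stable (hT.wd M i l).monodromy k g
  have h1 := trace_of_isDet hst (hP l) 0
  rw [← res_eq hst, zero_add, pow_one] at h1
  exact h1

include hW hT in
theorem euler_of_rv (h : ∀ M i k g, RV T M i k g) : EulerIndependence v Fr T := by
  intro M i
  by_cases hE' : Nonempty T.Ell
  swap
  · exact ⟨0, fun l => (hE' ⟨l⟩).elim⟩
  obtain ⟨l0⟩ := hE'
  choose r hr using fun g => h M i 1 g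
  have hfd : ∀ l, FiniteDimensional ℂ (T.V M i l).V := fun l => (hT.wd M i l).finite
  have h1 : ∀ l m (J : Subgroup W), (∀ j ∈ J, (T.V M i m).ρ j = 1) →
      J = com v (T.V M i l) (T.V M i l0) → ∀ n,
      LinearMap.trace ℂ _ (res ((T.V M i m).ρ Fr) (inv v (T.V M i m)) ^ n) =
        avgVal v Fr J (fun g => (r g : ℂ)) n := by
    intro l m J hm hJ n
    have hfin : Finite (v.ker ⧸ J.subgroupOf v.ker) := by
      rw [hJ]; exact com_finite hW (hT.wd _ _ _) (hT.wd _ _ _)
    rw [trace_avg (hT.wd M i m).monodromy hm]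
    congr 1
    funext g
    have h2 := hr g m
    rw [pow_one] at h2
    exact h2
  have hrat : ∀ (J : Subgroup W) n, ∃ q : ℚ, avgVal v Fr J (fun g => (r g : ℂ)) n = q := by
    intro J n
    refine ⟨(Nat.card (v.ker ⧸ J.subgroupOf v.ker) : ℚ)⁻¹ *
      ∑ᶠ x : v.ker ⧸ J.subgroupOf v.ker, r (Fr ^ n * ((x.out : v.ker) : W)), ?_⟩
    rw [avgVal]
    push_cast
    congr 1
    by_cases hf : (Function.support fun x : v.ker ⧸ J.subgroupOf v.ker =>
        r (Fr ^ n * ((x.out : v.ker) : W))).Finite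
    · exact (map_finsum (algebraMap ℚ ℂ) hf).symm
    · rw [finsum_of_infinite_support hf, finsum_of_infinite_support]
      · simp
      · intro hf'
        apply hf
        refine hf'.subset fun x hx => ?_
        rw [Function.mem_support] at hx ⊢
        exact_mod_cast hx
  choose q hq using hrat
  have h2 : ∀ l n, LinearMap.trace ℂ _ (res ((T.V M i l).ρ Fr) (inv v (T.V M i l)) ^ n) =
      (q (com v (T.V M i l0) (T.V M i l0)) n : ℂ) := by
    intro l n
    rw [← hq, h1 l l (com v (T.V M i l) (T.V M i l0)) (fun j hj => MonoidHom.mem_ker.1 hj.1.1) rfl,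
      ← h1 l l0 (com v (T.V M i l) (T.V M i l0)) (fun j hj => MonoidHom.mem_ker.1 hj.1.2) rfl,
      ← h1 l0 l0 (com v (T.V M i l0) (T.V M i l0)) (fun j hj => MonoidHom.mem_ker.1 hj.1.1) rfl]
  obtain ⟨P, hP⟩ := exists_poly _ (q (com v (T.V M i l0) (T.V M i l0)))
    (fun k => h2 l0 (k + 1))
  refine ⟨P, fun l => ?_⟩
  have hst := inv_stable (hT.wd M i l).monodromy Fr
  refine isDet_of_trace hst _ (fun j => ?_) hP
  rw [← res_eq hst]
  exact h2 l (j + 1)

end main2

end Pool.Agent.N522.EF
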