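import Pool.Agent.N522.EF.Lin

/-!
# Inertia invariants of `A ⊗ ℂ[W / H]` and of `A ⊗ Sp(t + 1)`
-/

set_option autoImplicit false

namespace Pool.Agent.N522.EF

open Module

section res

variable {V V' : Type} [AddCommGroup V] [Module ℂ V] [AddCommGroup V'] [Module ℂ V']

open Classical in
/-- the restriction of `g` to a stable subspace -/
noncomputable def res (g : End ℂ V) (U : Submodule ℂ V) : End ℂ U :=
  if h : ∀ x ∈ U, g x ∈ U then g.restrict h else 0

theorem res_eq {g : End ℂ V} {U : Submodule ℂ V} (h : ∀ x ∈ U, g x ∈ U) :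
    res g U = g.restrict h := by rw [res, dif_pos h]

theorem res_apply {g : End ℂ V} {U : Submodule ℂ V} (h : ∀ x ∈ U, g x ∈ U) (x : U) :
    (res g U x : V) = g x := by rw [res_eq h]; rfl

/-- the trace on a stable subspace -/
noncomputable def tr (g : End ℂ V) (U : Submodule ℂ V) : ℂ := LinearMap.trace ℂ U (res g U)

theorem trace_conj_eq {U U' : Type} [AddCommGroup U] [Module ℂ U] [AddCommGroup U'] [Module ℂ U']
    (e : U ≃ₗ[ℂ] U') (f : End ℂ U) (f' : End ℂ U') (h : ∀ x, e (f x) = f' (e x)) :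
    LinearMap.trace ℂ U f = LinearMap.trace ℂ U' f' := by
  rw [← LinearMap.trace_conj' f e]
  congr 1
  refine LinearMap.ext fun x => ?_
  rw [LinearEquiv.conj_apply_apply, h, LinearEquiv.apply_symm_apply]

theorem trace_pi {K : Type} [AddCommGroup K] [Module ℂ K] [FiniteDimensional ℂ K] (f : ℕ)
    (h : End ℂ K) (T : End ℂ (Fin f → K)) (hT : ∀ c i, T c i = h (c i)) :
    LinearMap.trace ℂ (Fin f → K) T = f * LinearMap.trace ℂ K h := by
  let b := Module.finBasis ℂ K
  let B := Pi.basis (fun _ : Fin f => b)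
  rw [LinearMap.trace_eq_matrix_trace ℂ B, LinearMap.trace_eq_matrix_trace ℂ b,
    Matrix.trace, Matrix.trace]
  have h1 : ∀ s : (Σ _ : Fin f, Fin (finrank ℂ K)), (LinearMap.toMatrix B B T).diag s =
      (LinearMap.toMatrix b b h).diag s.2 := by
    rintro ⟨i, j⟩
    rw [Matrix.diag_apply, Matrix.diag_apply, LinearMap.toMatrix_apply, LinearMap.toMatrix_apply,
      Pi.basis_repr, hT]
    congr 3
    rw [Pi.basis_apply, Pi.single_eq_same]
  rw [Finset.sum_congr rfl fun s _ => h1 s, Fintype.sum_sigma]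
  simp

end res

section stable

variable {W : Type} [Group W] {p : ℕ} {v : W →* Multiplicative ℤ} {A : WD W}
  (hN : ∀ g x, A.N (A.ρ g x) = om p v g • A.ρ g (A.N x))

include hN

theorem Npow (k : ℕ) (g : W) (x : A.V) :
    (A.N ^ k) (A.ρ g x) = om p v g ^ k • A.ρ g ((A.N ^ k) x) := by
  induction k generalizing x with
  | zero => simp
  | succ k ih =>
    rw [pow_succ, End.mul_apply, hN, map_smul, ih, smul_smul, End.mul_apply, ← pow_succ']

theorem ker_stable (k : ℕ) (g : W) :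
    ∀ x ∈ LinearMap.ker (A.N ^ k), A.ρ g x ∈ LinearMap.ker (A.N ^ k) := by
  intro x hx
  rw [LinearMap.mem_ker] at hx ⊢
  rw [Npow hN, hx, map_zero, smul_zero]

theorem ker_stable' (g : W) : ∀ x ∈ LinearMap.ker A.N, A.ρ g x ∈ LinearMap.ker A.N := by
  intro x hx
  rw [LinearMap.mem_ker] at hx ⊢
  rw [hN, hx, map_zero, smul_zero]

theorem inv_stable (g : W) : ∀ x ∈ inv v A, A.ρ g x ∈ inv v A := by
  rintro x ⟨h1, h2⟩
  refine ⟨by rw [hN, h1, map_zero, smul_zero], fun u hu => ?_⟩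
  have h3 : v (g⁻¹ * u * g) = 1 := by rw [map_mul, map_mul, hu, map_inv, mul_one, inv_mul_cancel]
  change A.ρ u (A.ρ g x) = A.ρ g x
  rw [← End.mul_apply, ← map_mul, show u * g = g * (g⁻¹ * u * g) by group, map_mul,
    End.mul_apply, show A.ρ (g⁻¹ * u * g) x = x from h2 _ h3]

end stable

section perm

variable {W : Type} [Group W] {p : ℕ} {v : W →* Multiplicative ℤ} {A : WD W}
  (hN : ∀ g x, A.N (A.ρ g x) = om p v g • A.ρ g (A.N x))

/-- the residue modulo `f` -/
def idx {f : ℕ} (hf : 0 < f) (z : ℤ) : Fin f :=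
  ⟨(z % f).toNat, by
    have h1 := Int.emod_lt_of_pos z (by exact_mod_cast hf : (0 : ℤ) < f)
    have h2 := Int.emod_nonneg z (by exact_mod_cast hf.ne' : (f : ℤ) ≠ 0)
    omega⟩

theorem idx_add {f : ℕ} (hf : 0 < f) (z : ℤ) : idx hf (z + f) = idx hf z := by
  apply Fin.ext
  change ((z + f) % f).toNat = (z % f).toNat
  rw [Int.add_emod_right]

theorem idx_nat {f : ℕ} (hf : 0 < f) (a : Fin f) : idx hf ((a : ℕ) : ℤ) = a := by
  unfold idx
  apply Fin.ext
  change (((a : ℕ) : ℤ) % f).toNat = a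
  have ha := a.2
  rw [Int.emod_eq_of_lt (by omega) (by omega)]
  rfl

theorem idx_cast {f : ℕ} (hf : 0 < f) (z : ℤ) : (((idx hf z : Fin f) : ℕ) : ℤ) = z % f := by
  unfold idx
  exact Int.toNat_of_nonneg (Int.emod_nonneg z (by exact_mod_cast hf.ne' : (f : ℤ) ≠ 0))

variable {g Fr : W} {J : Subgroup W} {f : ℕ} (hf : 0 < f) (hg : (v g).toAdd = f)
  (hFr : (v Fr).toAdd = 1) (hJ : ∀ j ∈ J, v j = 1) (hJA : ∀ j ∈ J, A.ρ j = 1)

/-- the function on `W` attached to a function on `Fin f` -/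
noncomputable def psi (A : WD W) (v : W →* Multiplicative ℤ) (g : W) {f : ℕ} (hf : 0 < f)
    (k : Fin f → LinearMap.ker A.N) (w : W) : A.V :=
  A.ρ (w * g ^ (-((v w).toAdd / f))) (k (idx hf (v w).toAdd))

/-- the right translations under which a function is invariant -/
def stab {U : Type} (ψ : W → U) : Subgroup W where
  carrier := {h | ∀ w, ψ (w * h) = ψ w}
  mul_mem' := by
    intro a b ha hb w
    rw [← mul_assoc, hb, ha]
  one_mem' := by intro w; rw [mul_one]
  inv_mem' := by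
    intro a ha w
    have := ha (w * a⁻¹)
    rw [inv_mul_cancel_right] at this
    exact this.symm

include hg hJ hJA in
theorem psi_stab (k : Fin f → LinearMap.ker A.N) :
    Subgroup.zpowers g ⊔ J ≤ stab (psi A v g hf k) := by
  have hf' : (f : ℤ) ≠ 0 := by exact_mod_cast hf.ne'
  refine sup_le ?_ ?_
  · rw [Subgroup.zpowers_le]
    intro w
    change A.ρ (w * g * g ^ (-((v (w * g)).toAdd / f))) (k (idx hf (v (w * g)).toAdd)) =
      A.ρ (w * g ^ (-((v w).toAdd / f))) (k (idx hf (v w).toAdd))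
    rw [map_mul v, toAdd_mul, hg, idx_add, Int.add_ediv_of_dvd_right (dvd_refl _),
      Int.ediv_self hf', neg_add, zpow_add, zpow_neg_one, mul_assoc w g]
    congr 2
    group
  · intro j hj w
    change A.ρ (w * j * g ^ (-((v (w * j)).toAdd / f))) (k (idx hf (v (w * j)).toAdd)) =
      A.ρ (w * g ^ (-((v w).toAdd / f))) (k (idx hf (v w).toAdd))
    rw [map_mul v, hJ j hj, mul_one, map_mul, map_mul, hJA j hj, mul_one, ← map_mul]

/-- the function on `W / H` attached to a function on `Fin f` -/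
noncomputable def toPerm (k : Fin f → LinearMap.ker A.N) :
    (perm (Subgroup.zpowers g ⊔ J) A).V := fun x =>
  Quotient.liftOn' x (psi A v g hf k) (by
    intro a b hab
    rw [QuotientGroup.leftRel_apply] at hab
    have h := psi_stab hf hg hJ hJA k hab a
    rw [mul_inv_cancel_left] at h
    exact h.symm)

theorem toPerm_mk (k : Fin f → LinearMap.ker A.N) (w : W) :
    toPerm hf hg hJ hJA k (w : W ⧸ (Subgroup.zpowers g ⊔ J)) = psi A v g hf k w := rfl

include hN in
theorem toPerm_mem (k : Fin f → LinearMap.ker A.N) :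
    toPerm hf hg hJ hJA k ∈ inv v (perm (Subgroup.zpowers g ⊔ J) A) := by
  constructor
  · funext x
    induction x using QuotientGroup.induction_on with
    | H w =>
      change A.N (psi A v g hf k w) = 0
      rw [psi, hN, LinearMap.mem_ker.1 (k _).2, map_zero, smul_zero]
  · intro u hu
    funext x
    induction x using QuotientGroup.induction_on with
    | H w =>
      change A.ρ u (psi A v g hf k (u⁻¹ * w)) = psi A v g hf k w
      rw [psi, psi, map_mul v, map_inv, hu, inv_one, one_mul, ← End.mul_apply, ← map_mul]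
      congr 2
      group

/-- invariant functions are determined on one coset in each degree -/
theorem inv_apply {H : Subgroup W} {φ : (perm H A).V} (hφ : φ ∈ inv v (perm H A)) {u : W}
    (hu : v u = 1) (w : W) : φ ((u * w : W) : W ⧸ H) = A.ρ u (φ (w : W ⧸ H)) := by
  have h := congrFun (hφ.2 u hu) ((u * w : W) : W ⧸ H)
  change A.ρ u (φ ((u⁻¹ * (u * w) : W) : W ⧸ H)) = φ ((u * w : W) : W ⧸ H) at h
  rw [inv_mul_cancel_left] at h
  exact h.symm

theorem mk_mul_zpow {H : Subgroup W} (hH : g ∈ H) (w : W) (m : ℤ) :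
    ((w * g ^ m : W) : W ⧸ H) = (w : W ⧸ H) := by
  rw [QuotientGroup.eq]
  rw [mul_inv_rev, inv_mul_cancel_right]
  exact H.inv_mem (H.zpow_mem hH m)

theorem mem_ker_apply {H : Subgroup W} {φ : (perm H A).V} (hφ : φ ∈ inv v (perm H A))
    (x : W ⧸ H) : φ x ∈ LinearMap.ker A.N := by
  rw [LinearMap.mem_ker]
  exact congrFun hφ.1 x

/-- The inertia invariants of `A ⊗ ℂ[W / H]` for `H` generated by `g` and `J`. -/
noncomputable def permEquiv :
    inv v (perm (Subgroup.zpowers g ⊔ J) A) ≃ₗ[ℂ] (Fin f → LinearMap.ker A.N) where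
  toFun φ a := ⟨A.ρ (Fr ^ (a : ℕ))⁻¹ (φ.1 ((Fr ^ (a : ℕ) : W) : W ⧸ (Subgroup.zpowers g ⊔ J))),
    ker_stable' hN _ _ (mem_ker_apply φ.2 _)⟩
  map_add' φ ψ := by
    funext a
    apply Subtype.ext
    change A.ρ _ (φ.1 _ + ψ.1 _) = A.ρ _ (φ.1 _) + A.ρ _ (ψ.1 _)
    rw [map_add]
  map_smul' c φ := by
    funext a
    apply Subtype.ext
    change A.ρ _ (c • φ.1 _) = c • A.ρ _ (φ.1 _)
    rw [map_smul]
  invFun k := ⟨toPerm hf hg hJ hJA k, toPerm_mem hN hf hg hJ hJA k⟩
  left_inv φ := by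
    apply Subtype.ext
    funext x
    induction x using QuotientGroup.induction_on with
    | H w =>
      have hgH : g ∈ Subgroup.zpowers g ⊔ J :=
        Subgroup.mem_sup_left (Subgroup.mem_zpowers g)
      set z := (v w).toAdd with hz
      set a := idx hf z with ha
      have h1 : ((w : W) : W ⧸ (Subgroup.zpowers g ⊔ J)) =
          (((w * g ^ (-(z / f)) * (Fr ^ (a : ℕ))⁻¹) * Fr ^ (a : ℕ) : W) : W ⧸ _) := by
        rw [inv_mul_cancel_right, mk_mul_zpow hgH]
      have h2 : v (w * g ^ (-(z / f)) * (Fr ^ (a : ℕ))⁻¹) = 1 := by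
        apply Multiplicative.toAdd.injective
        rw [map_mul v, map_mul v, map_zpow v, map_inv v, map_pow v, toAdd_mul, toAdd_mul,
          toAdd_zpow, toAdd_inv, toAdd_pow, hg, hFr, ← hz, toAdd_one, ha, nsmul_eq_mul, idx_cast,
          mul_one, smul_eq_mul]
        have h5 := Int.mul_ediv_add_emod z f
        linarith
      change A.ρ (w * g ^ (-(z / f))) (A.ρ (Fr ^ (a : ℕ))⁻¹ (φ.1 _)) = φ.1 _
      rw [h1, inv_apply φ.2 h2, ← End.mul_apply, ← map_mul]
  right_inv k := by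
    funext a
    apply Subtype.ext
    have hva : (v (Fr ^ (a : ℕ))).toAdd = ((a : ℕ) : ℤ) := by
      rw [map_pow, toAdd_pow, hFr, nsmul_eq_mul, mul_one]
    change A.ρ (Fr ^ (a : ℕ))⁻¹ (A.ρ (Fr ^ (a : ℕ) * g ^ (-((v (Fr ^ (a : ℕ))).toAdd / f)))
      (k (idx hf (v (Fr ^ (a : ℕ))).toAdd))) = k a
    have h0 : (((a : ℕ) : ℤ)) / f = 0 := by
      have := a.2
      exact Int.ediv_eq_zero_of_lt (by omega) (by omega)
    rw [hva, idx_nat, h0, neg_zero, zpow_zero, mul_one, ← End.mul_apply, ← map_mul,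
      inv_mul_cancel, map_one, End.one_apply]

theorem perm_pow (H : Subgroup W) (n : ℕ) (φ : (perm H A).V) (w : W) :
    ((((perm H A).ρ Fr) ^ n) φ) (w : W ⧸ H) =
      A.ρ (Fr ^ n) (φ (((Fr ^ n)⁻¹ * w : W) : W ⧸ H)) := by
  rw [← map_pow]
  rfl

include hN hf hg hFr hJ hJA in
/-- The trace of `Fr ^ f` on the inertia invariants of `A ⊗ ℂ[W / H]`. -/
theorem trace_perm [FiniteDimensional ℂ A.V] :
    LinearMap.trace ℂ _ (res ((perm (Subgroup.zpowers g ⊔ J) A).ρ Fr)
      (inv v (perm (Subgroup.zpowers g ⊔ J) A)) ^ f) = f * tr (A.ρ g) (LinearMap.ker A.N) := by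
  set H := Subgroup.zpowers g ⊔ J with hH
  have hNp : ∀ g x, (perm H A).N ((perm H A).ρ g x) =
      om p v g • (perm H A).ρ g ((perm H A).N x) := by
    intro g x
    funext y
    exact hN g _
  have hst := inv_stable hNp Fr
  have hK := ker_stable' hN g
  let Φ := permEquiv hN hf hg hFr hJ hJA
  let T : End ℂ (Fin f → LinearMap.ker A.N) :=
    LinearMap.pi fun i => res (A.ρ g) (LinearMap.ker A.N) ∘ₗ LinearMap.proj i
  have h1 := trace_conj_eq Φ (res ((perm H A).ρ Fr) (inv v (perm H A)) ^ f) T ?_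
  · rw [h1, trace_pi f (res (A.ρ g) (LinearMap.ker A.N)) T (fun c i => rfl)]
    rfl
  · intro φ
    funext a
    apply Subtype.ext
    have h2 : ∀ n : ℕ, (((res ((perm H A).ρ Fr) (inv v (perm H A)) ^ n) φ : inv v (perm H A)) :
        (perm H A).V) = (((perm H A).ρ Fr) ^ n) φ.1 := by
      intro n
      induction n with
      | zero => rfl
      | succ n ih => rw [pow_succ', End.mul_apply, res_apply hst, ih, pow_succ', End.mul_apply]
    change A.ρ (Fr ^ (a : ℕ))⁻¹ (((res ((perm H A).ρ Fr) (inv v (perm H A)) ^ f) φ).1 _) =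
      (res (A.ρ g) (LinearMap.ker A.N) ⟨A.ρ (Fr ^ (a : ℕ))⁻¹ (φ.1 _), _⟩ : A.V)
    rw [h2, perm_pow, res_apply hK]
    have hgH : g ∈ H := Subgroup.mem_sup_left (Subgroup.mem_zpowers g)
    have h3 : (((Fr ^ f)⁻¹ * Fr ^ (a : ℕ) : W) : W ⧸ H) =
        ((((Fr ^ f)⁻¹ * Fr ^ (a : ℕ) * g ^ (1 : ℤ) * (Fr ^ (a : ℕ))⁻¹) * Fr ^ (a : ℕ) : W) :
          W ⧸ H) := by
      rw [inv_mul_cancel_right, mk_mul_zpow hgH]
    have h4 : v ((Fr ^ f)⁻¹ * Fr ^ (a : ℕ) * g ^ (1 : ℤ) * (Fr ^ (a : ℕ))⁻¹) = 1 := by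
      apply Multiplicative.toAdd.injective
      rw [map_mul v, map_mul v, map_mul v, map_inv v, map_inv v, map_pow v, map_pow v,
        map_zpow v, toAdd_mul, toAdd_mul, toAdd_mul, toAdd_inv, toAdd_inv, toAdd_pow, toAdd_pow,
        toAdd_zpow, hg, hFr, toAdd_one, smul_eq_mul, nsmul_eq_mul, nsmul_eq_mul]
      ring
    rw [h3, inv_apply φ.2 h4]
    change A.ρ (Fr ^ (a : ℕ))⁻¹ (A.ρ (Fr ^ f) (A.ρ _ (φ.1 _))) =
      A.ρ g (A.ρ (Fr ^ (a : ℕ))⁻¹ (φ.1 _))
    rw [← End.mul_apply, ← map_mul, ← End.mul_apply, ← map_mul, ← End.mul_apply, ← map_mul]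
    congr 2
    rw [zpow_one]
    group

end perm

end Pool.Agent.N522.EF
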