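import Pool.Agent.N522.EF.Main
import Pool.Agent.N522.LT.Lin

/-!
# The weight-monodromy conjecture does not depend on `ℓ`
-/

set_option autoImplicit false

namespace Pool.Agent.N522.EF

open Module Polynomial

section lin

variable {V V' : Type} [AddCommGroup V] [Module ℂ V] [AddCommGroup V'] [Module ℂ V']

/-- `det(1 - T g | U)` determines the characteristic polynomial for invertible `g`. -/
theorem charpoly_eq_of_rev {n n' : ℕ} (A : Matrix (Fin n) (Fin n) ℂ)
    (B : Matrix (Fin n') (Fin n') ℂ) (hA : IsUnit A.det) (hB : IsUnit B.det)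
    (h : A.charpolyRev = B.charpolyRev) : A.charpoly = B.charpoly := by
  have key : ∀ {n : ℕ} (A : Matrix (Fin n) (Fin n) ℂ), IsUnit A.det →
      A.charpolyRev.natDegree = n ∧ ∀ j ≤ n, A.charpolyRev.coeff j = A.charpoly.coeff (n - j) := by
    intro n A hA
    have hdeg : A.charpoly.natDegree = n := by
      rw [Matrix.charpoly_natDegree_eq_dim, Fintype.card_fin]
    have hrev : ∀ j ≤ n, A.charpolyRev.coeff j = A.charpoly.coeff (n - j) := by
      intro j hj
      rw [← Matrix.reverse_charpoly, coeff_reverse, hdeg, revAt_le hj]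
    have h0 : A.charpoly.coeff 0 ≠ 0 := by
      intro h0
      have h1 := Matrix.det_eq_sign_charpoly_coeff A
      rw [h0, mul_zero] at h1
      rw [h1] at hA
      exact not_isUnit_zero hA
    refine ⟨le_antisymm ?_ (le_natDegree_of_ne_zero ?_), hrev⟩
    · rw [← Matrix.reverse_charpoly]
      exact (reverse_natDegree_le _).trans hdeg.le
    · rw [hrev n le_rfl, Nat.sub_self]; exact h0
  obtain ⟨h1, h2⟩ := key A hA
  obtain ⟨h3, h4⟩ := key B hB
  have hnn : n = n' := by rw [← h1, h, h3]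
  subst hnn
  refine Polynomial.ext fun k => ?_
  by_cases hk : k ≤ n
  · have h5 := h2 (n - k) (by omega)
    have h6 := h4 (n - k) (by omega)
    rw [show n - (n - k) = k by omega] at h5 h6
    rw [← h5, ← h6, h]
  · rw [coeff_eq_zero_of_natDegree_lt, coeff_eq_zero_of_natDegree_lt]
    · rw [Matrix.charpoly_natDegree_eq_dim, Fintype.card_fin]; omega
    · rw [Matrix.charpoly_natDegree_eq_dim, Fintype.card_fin]; omega

/-- The dimensions of the generalised eigenspaces from `det(1 - T g | U)`. -/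
theorem finrank_eq_of_isDet [FiniteDimensional ℂ V] [FiniteDimensional ℂ V'] {g : End ℂ V}
    {g' : End ℂ V'} {U : Submodule ℂ V} {U' : Submodule ℂ V'} (hU : ∀ x ∈ U, g x ∈ U)
    (hU' : ∀ x ∈ U', g' x ∈ U') (hg : IsUnit (res g U)) (hg' : IsUnit (res g' U')) {P : ℂ[X]}
    (h : IsDet g U P) (h' : IsDet g' U' P) (α : ℂ) :
    finrank ℂ ↥(U ⊓ g.maxGenEigenspace α) = finrank ℂ ↥(U' ⊓ g'.maxGenEigenspace α) := by
  obtain ⟨n, b, A, hA, hP⟩ := h
  obtain ⟨n', b', A', hA', hP'⟩ := h'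
  have h1 := toLin_eq hU b A hA
  have h2 := toLin_eq hU' b' A' hA'
  have hdet : ∀ {V : Type} [AddCommGroup V] [Module ℂ V] {g : End ℂ V} {U : Submodule ℂ V}
      (hU : ∀ x ∈ U, g x ∈ U), IsUnit (res g U) → ∀ {n : ℕ} (b : Basis (Fin n) ℂ U)
      (A : Matrix (Fin n) (Fin n) ℂ), g.restrict hU = Matrix.toLin b b A → IsUnit A.det := by
    intro V _ _ g U hU hg n b A h
    rw [res_eq hU, h] at hg
    have h3 : A = LinearMap.toMatrix b b (Matrix.toLin b b A) := (LinearMap.toMatrix_toLin _ _ _).symm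
    rw [h3, ← Matrix.isUnit_iff_isUnit_det]
    exact hg.map (LinearMap.toMatrixAlgEquiv b)
  have h3 := charpoly_eq_of_rev A A' (hdet hU hg b A h1) (hdet hU' hg' b' A' h2) (hP.trans hP'.symm)
  have h4 : (g.restrict hU).charpoly = (g'.restrict hU').charpoly := by
    rw [← LinearMap.charpoly_toMatrix (g.restrict hU) b, h1, LinearMap.toMatrix_toLin, h3,
      ← LinearMap.charpoly_toMatrix (g'.restrict hU') b', h2, LinearMap.toMatrix_toLin]
  have h5 : ∀ {V : Type} [AddCommGroup V] [Module ℂ V] [FiniteDimensional ℂ V] {g : End ℂ V}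
      {U : Submodule ℂ V} (hU : ∀ x ∈ U, g x ∈ U), finrank ℂ ↥(U ⊓ g.maxGenEigenspace α) =
        (g.restrict hU).charpoly.rootMultiplicity α := by
    intro V _ _ _ g U hU
    rw [← LinearMap.finrank_maxGenEigenspace_eq]
    have h6 := Submodule.inf_genEigenspace g U (k := ⊤) (μ := α) hU
    change U ⊓ g.maxGenEigenspace α = _ at h6
    rw [h6]
    exact LinearEquiv.finrank_eq
      (Submodule.equivMapOfInjective U.subtype (Submodule.subtype_injective U) _).symm
  rw [h5 hU, h5 hU', h4]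

end lin

variable {W : Type} [Group W] [TopologicalSpace W] {p : ℕ} [Fact p.Prime]
  {v : W →* Multiplicative ℤ} {Fr : W} (hFr : (v Fr).toAdd = 1)

include hFr

omit [TopologicalSpace W] [Fact p.Prime] in
theorem om_Fr : om p v Fr = p := by rw [om, hFr, zpow_one]

omit [Fact p.Prime] in
theorem mono_Fr {A : WD W} (hA : IsWD p v A) (x : A.V) :
    A.N (A.ρ Fr x) = (p : ℂ) • A.ρ Fr (A.N x) := by
  rw [hA.monodromy, om_Fr hFr]

theorem gen_le_ker {A : WD W} (hA : IsWD p v A) (α : ℂ) :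
    ∃ K, ∀ k, K ≤ k → (A.ρ Fr).maxGenEigenspace α ≤ LinearMap.ker (A.N ^ k) := by
  have := hA.finite
  have hp : (p : ℂ) ≠ 0 := by exact_mod_cast (Fact.out : p.Prime).ne_zero
  have hp1 : 1 < p := (Fact.out : p.Prime).one_lt
  have hmono := mono_Fr hFr hA
  have huniq : ∃ K : ℕ, ¬ (A.ρ Fr).HasEigenvalue (α / (p : ℂ) ^ K) := by
    by_cases hα : α = 0
    · refine ⟨0, ?_⟩
      rw [hα, zero_div]
      intro h
      obtain ⟨x, hx⟩ := h.exists_hasEigenvector
      have h1 := hx.apply_eq_smul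
      rw [zero_smul] at h1
      have h2 : A.ρ Fr⁻¹ (A.ρ Fr x) = x := by
        rw [← End.mul_apply, ← map_mul, inv_mul_cancel, map_one, End.one_apply]
      rw [h1, map_zero] at h2
      exact hx.2 h2.symm
    · by_contra hall
      push Not at hall
      have hfin : Set.Finite ((A.ρ Fr).HasEigenvalue) := End.finite_hasEigenvalue _
      have hinj : Function.Injective (fun k : ℕ => α / (p : ℂ) ^ k) := by
        intro a b hab
        have h1 : (p : ℂ) ^ a = (p : ℂ) ^ b := by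
          have h2 : α / (p : ℂ) ^ a = α / (p : ℂ) ^ b := hab
          rw [div_eq_div_iff (pow_ne_zero _ hp) (pow_ne_zero _ hp)] at h2
          exact (mul_left_cancel₀ hα h2).symm
        have h3 : p ^ a = p ^ b := by exact_mod_cast h1
        exact Nat.pow_right_injective hp1 h3
      exact (Set.infinite_range_of_injective hinj) (hfin.subset (by
        rintro _ ⟨k, rfl⟩
        exact hall k))
  obtain ⟨K, hK⟩ := huniq
  refine ⟨K, fun k hk x hx => ?_⟩
  rw [LinearMap.mem_ker, ← Nat.sub_add_cancel hk, pow_add, End.mul_apply]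
  have h1 := LT.Npow_gen hp hmono K hx
  have h2 : (A.N ^ K) x = 0 := by
    by_contra h0
    exact hK (LT.eigen_of_gen h1 h0)
  rw [h2, map_zero]

theorem wm_iff {A : WD W} (hA : IsWD p v A) (w : ℤ) : WeightMonodromy p Fr A w ↔
    ∀ (t : ℕ) (α : ℂ), ‖α‖ ^ 2 = (p : ℝ) ^ (w + t) →
      finrank ℂ ↥(LinearMap.ker (A.N ^ t) ⊓ (A.ρ Fr).maxGenEigenspace α) = 0 ∧
      finrank ℂ ((A.ρ Fr).maxGenEigenspace α) =
        finrank ℂ ((A.ρ Fr).maxGenEigenspace (α / (p : ℂ) ^ t)) := by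
  have := hA.finite
  have hp : (p : ℂ) ≠ 0 := by exact_mod_cast (Fact.out : p.Prime).ne_zero
  have hmono := mono_Fr hFr hA
  refine forall_congr' fun t => forall_congr' fun α => imp_congr_right fun hα => ?_
  have hmaps : ∀ x ∈ (A.ρ Fr).maxGenEigenspace α,
      (A.N ^ t) x ∈ (A.ρ Fr).maxGenEigenspace (α / (p : ℂ) ^ t) :=
    fun x hx => LT.Npow_gen hp hmono t hx
  let φ : (A.ρ Fr).maxGenEigenspace α →ₗ[ℂ] (A.ρ Fr).maxGenEigenspace (α / (p : ℂ) ^ t) :=
    (A.N ^ t).restrict hmaps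
  constructor
  · rintro ⟨-, h2, h3⟩
    refine ⟨?_, ?_⟩
    · rw [Submodule.finrank_eq_zero, eq_bot_iff]
      rintro x ⟨hx1, hx2⟩
      rw [Submodule.mem_bot]
      refine h2 hx2 (Submodule.zero_mem _) ?_
      rw [map_zero]
      exact LinearMap.mem_ker.1 hx1
    · refine LinearEquiv.finrank_eq (LinearEquiv.ofBijective φ ⟨?_, ?_⟩)
      · rintro ⟨x, hx⟩ ⟨y, hy⟩ hxy
        exact Subtype.ext (h2 hx hy (congrArg Subtype.val hxy))
      · rintro ⟨z, hz⟩
        obtain ⟨y, hy, hyz⟩ := h3 hz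
        exact ⟨⟨y, hy⟩, Subtype.ext hyz⟩
  · rintro ⟨h1, h2⟩
    rw [Submodule.finrank_eq_zero, eq_bot_iff] at h1
    have hinj : Function.Injective φ := by
      rw [← LinearMap.ker_eq_bot, eq_bot_iff]
      rintro ⟨x, hx⟩ hx0
      have h3 : (A.N ^ t) x = 0 := congrArg Subtype.val (LinearMap.mem_ker.1 hx0)
      rw [Submodule.mem_bot]
      exact Subtype.ext ((Submodule.mem_bot ℂ).1 (h1 ⟨h3, hx⟩))
    have hsurj : Function.Surjective φ :=
      (LinearMap.injective_iff_surjective_of_finrank_eq_finrank h2).1 hinj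
    refine ⟨hmaps, fun x hx y hy hxy => ?_, fun z hz => ?_⟩
    · exact congrArg Subtype.val (@hinj ⟨x, hx⟩ ⟨y, hy⟩ (Subtype.ext hxy))
    · obtain ⟨⟨y, hy⟩, hyz⟩ := hsurj ⟨z, hz⟩
      exact ⟨y, hy, congrArg Subtype.val hyz⟩

theorem wm_of {A B : WD W} (hA : IsWD p v A) (hB : IsWD p v B)
    (h : ∀ k : ℕ, ∃ P, IsDet (A.ρ Fr) (LinearMap.ker (A.N ^ k)) P ∧
      IsDet (B.ρ Fr) (LinearMap.ker (B.N ^ k)) P) (w : ℤ)
    (hwm : WeightMonodromy p Fr A w) : WeightMonodromy p Fr B w := by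
  have hfA := hA.finite
  have hfB := hB.finite
  have key : ∀ (k : ℕ) (α : ℂ),
      finrank ℂ ↥(LinearMap.ker (A.N ^ k) ⊓ (A.ρ Fr).maxGenEigenspace α) =
        finrank ℂ ↥(LinearMap.ker (B.N ^ k) ⊓ (B.ρ Fr).maxGenEigenspace α) := by
    intro k α
    obtain ⟨P, h1, h2⟩ := h k
    exact finrank_eq_of_isDet (ker_stable hA.monodromy k Fr) (ker_stable hB.monodromy k Fr)
      (res_unit hA.monodromy k Fr) (res_unit hB.monodromy k Fr) h1 h2 α
  have key2 : ∀ α : ℂ, finrank ℂ ((A.ρ Fr).maxGenEigenspace α) =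
      finrank ℂ ((B.ρ Fr).maxGenEigenspace α) := by
    intro α
    obtain ⟨K, hK⟩ := gen_le_ker hFr hA α
    obtain ⟨K', hK'⟩ := gen_le_ker hFr hB α
    have h1 := key (max K K') α
    rw [inf_eq_right.2 (hK _ (le_max_left _ _)), inf_eq_right.2 (hK' _ (le_max_right _ _))] at h1
    exact h1
  rw [wm_iff hFr hA] at hwm
  rw [wm_iff hFr hB]
  intro t α hα
  obtain ⟨h1, h2⟩ := hwm t α hα
  rw [key] at h1
  rw [key2, key2] at h2
  exact ⟨h1, h2⟩

theorem main [IsTopologicalGroup W] (hW : IsWeil v) {T : Motives W} (hT : IsMotives p v T) :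
    (EulerIndependence v Fr T ↔ WeilDeligneIndependence T) ∧
    (EulerIndependence v Fr T → ∀ M i l l',
      WeightMonodromy p Fr (T.V M i l) i → WeightMonodromy p Fr (T.V M i l') i) := by
  refine ⟨⟨fun h => strong_of_rv hT (rv_all hW hFr hT h), fun h =>
    euler_of_rv hW hT (rv_of_strong hT h)⟩, fun h M i l l' hwm => ?_⟩
  have h1 := strong_of_rv hT (rv_all hW hFr hT h)
  refine wm_of hFr (hT.wd M i l) (hT.wd M i l') (fun k => ?_) i hwm
  obtain ⟨P, hP⟩ := h1 M i k Fr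
  exact ⟨_, hP l, hP l'⟩

end Pool.Agent.N522.EF
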